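import Pool.Agent.H31.BOU.Targets1
import Pool.Agent.H31.BOU.Targets2

/-! Row L2N of `bou_modules`: the mean square of `DD` at a good node. -/

set_option autoImplicit false

namespace Pool.Agent.H79.BOU

open Finset Pool.Agent.H31.BOU

theorem pf_L2N (hR : T_RHO) (hD : T_DDC) (hF : T_FTG) (hC : T_DFC) (hX : T_CHI) : T_L2N := by
  intro T
  obtain ⟨C, hC0, hRho⟩ := hR (rr T)
  refine ⟨C ^ 2, by positivity, ?_⟩
  intro ι θ _ _ J q G Q P hyp j κ t hj ht good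
  have hq : 0 < q := lt_of_lt_of_le one_pos hyp.q1
  have hlo : (κ - 4) * 2 ^ j ≤ (κ + T + 7) * 2 ^ j := by
    have h2 : (0 : ℤ) ≤ 2 ^ j := by positivity
    exact mul_le_mul_of_nonneg_right (by omega) h2
  have hchi := (hX j ((κ - 4) * 2 ^ j) ((κ + T + 7) * 2 ^ j) hlo).1
  have hb : ∀ β, ‖ft (win (rr T) j κ) (th T (fun v => P.str j v) j κ) β‖ ≤
      C * 2 ^ j / q ^ 31 := by
    intro β
    refine hRho ι q P j κ (cc T) (chi j ((κ - 4) * 2 ^ j) ((κ + T + 7) * 2 ^ j)) β hyp.q1 ?_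
      (hyp.Pc j hj) good.fn good.fd fun v => ?_
    · unfold rr cc
      omega
    · refine ⟨?_, (hchi v).2.2⟩
      rw [abs_of_nonneg (hchi v).1]
      exact (hchi v).2.1
  have h1 : ∀ k ∈ Ico (κ * 2 ^ j) ((κ + 2) * 2 ^ j), ‖DD (P.str j) G j κ t k‖ ^ 2 =
      ‖∑ v ∈ win (rr T) j κ, gm G j κ t v *
        (if 2 * k - v ∈ win (rr T) j κ then th T (P.str j) j κ (2 * k - v) else 0)‖ ^ 2 := by
    intro k hk
    rw [mem_Ico] at hk
    rw [hD T (P.str j) G j κ t k ht hk.1 hk.2]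
  rw [Finset.sum_congr rfl h1]
  have h2 := hC (2 * rr T * 2 ^ j) ((κ - rr T) * 2 ^ j) (gm G j κ t) (th T (P.str j) j κ)
    (C * 2 ^ j / q ^ 31) (Ico (κ * 2 ^ j) ((κ + 2) * 2 ^ j)) (by positivity) hb
  refine h2.trans ?_
  have h3 := (hF T G j κ t ht hyp.G1).2.2
  have h4 : (C * 2 ^ j / q ^ 31) ^ 2 * ∑ v ∈ win (rr T) j κ, ‖gm G j κ t v‖ ^ 2 ≤
      (C * 2 ^ j / q ^ 31) ^ 2 * (1 / 2 ^ j) := mul_le_mul_of_nonneg_left h3 (sq_nonneg _)
  refine h4.trans (le_of_eq ?_)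
  have h5 : (2 : ℝ) ^ j ≠ 0 := by positivity
  field_simp

end Pool.Agent.H79.BOU
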